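import Mathlib
import Pool.Agent.TH10.RP.Defect
import Pool.Agent.TH10.RP.JB

/-! Counting the exceptional primes for two summands (part TK-2, second proof). -/

set_option autoImplicit false

namespace Pool.Agent.TH494.TK

open Finset Pool.Agent.TH10.RP

private lemma per_p (p l N : ℕ) (hl : 2 ≤ l)
    (h : ∑ m ∈ (Icc 3 l).filter (fun m => dn p m = 0), m.totient ≤ N) :
    l ^ 2 ≤ 8 + 4 * N + 4 * ∑ m ∈ Icc 3 l, m.totient * dn p m := by
  have h2 := totient_sum l
  have h3 : ∑ d ∈ range (l + 1), d.totient = 2 + ∑ m ∈ Icc 3 l, m.totient := by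
    have h4 : range (l + 1) = insert 0 (insert 1 (insert 2 (Icc 3 l))) := by
      ext a
      simp only [mem_range, mem_insert, mem_Icc]
      omega
    rw [h4, sum_insert, sum_insert, sum_insert, Nat.totient_zero, Nat.totient_one, Nat.totient_two]
    · omega
    · simp
    · simp
    · simp
  have h5 := sum_filter_add_sum_filter_not (Icc 3 l) (fun m => dn p m = 0) (fun m => m.totient)
  have h6 : ∑ m ∈ (Icc 3 l).filter (fun m => ¬ dn p m = 0), m.totient ≤
      ∑ m ∈ Icc 3 l, m.totient * dn p m := by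
    refine le_trans (sum_le_sum fun m hm => ?_) (sum_le_sum_of_subset (filter_subset _ _))
    have h7 := (mem_filter.1 hm).2
    exact Nat.le_mul_of_pos_right _ (Nat.pos_of_ne_zero h7)
  omega

private lemma total (l B : ℕ) (hB : 2 ≤ B) (hR : 4 * l ^ 3 ≤ B ^ 4) (S : Finset ℕ)
    (hS : ∀ p ∈ S, p.Prime ∧ l < p ∧ B ≤ p) :
    ∑ p ∈ S, ∑ m ∈ Icc 3 l, m.totient * dn p m ≤ l ^ 3 := by
  rw [sum_comm]
  have h1 : ∀ m ∈ Icc 3 l, ∑ p ∈ S, m.totient * dn p m ≤ l ^ 2 := by
    intro m hm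
    rw [mem_Icc] at hm
    rw [← mul_sum]
    have h2 := sum_dn m B hm.1 hB
      ((Nat.mul_le_mul_left 4 (Nat.pow_le_pow_left hm.2 3)).trans hR) S
      (fun p hp => ⟨(hS p hp).1, lt_of_le_of_lt hm.2 (hS p hp).2.1, (hS p hp).2.2⟩)
    rw [card_II hm.1] at h2
    have h3 := Nat.totient_le m
    calc m.totient * ∑ p ∈ S, dn p m ≤ m.totient * m.totient := Nat.mul_le_mul_left _ h2
      _ ≤ l * l := Nat.mul_le_mul (h3.trans hm.2) (h3.trans hm.2)
      _ = l ^ 2 := (sq l).symm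
  refine (sum_le_sum h1).trans ?_
  rw [sum_const, Nat.card_Icc, smul_eq_mul]
  calc (l + 1 - 3) * l ^ 2 ≤ l * l ^ 2 := Nat.mul_le_mul_right _ (by omega)
    _ = l ^ 3 := by ring

private lemma count_j (j : ℕ) (hj : 2 ≤ j) (S : Finset ℕ)
    (hS : ∀ p ∈ S, p.Prime ∧ 2 * 16 ^ j + 3 ≤ p ∧
      ∑ m ∈ (Icc 3 (16 * 4 ^ j)).filter (fun m => dn p m = 0), m.totient ≤ 32 * 16 ^ j) :
    S.card ≤ 147 * 4 ^ j := by
  have h16 : (16 : ℕ) ^ j = 4 ^ j * 4 ^ j := by rw [← mul_pow]; norm_num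
  have h4 : 16 ≤ 4 ^ j := by
    calc 16 = 4 ^ 2 := by norm_num
      _ ≤ 4 ^ j := Nat.pow_le_pow_right (by norm_num) hj
  rw [h16] at hS
  set a := 4 ^ j with ha
  have h1 : ∀ p ∈ S, 28 * (a * a) ≤ ∑ m ∈ Icc 3 (16 * a), m.totient * dn p m := by
    intro p hp
    have h2 := per_p p (16 * a) (32 * (a * a)) (by omega) (hS p hp).2.2
    nlinarith
  have h2 := total (16 * a) (2 * (a * a)) (by nlinarith) (by
      have h5 : 16 ^ 5 * a ^ 3 ≤ a ^ 5 * a ^ 3 :=
        Nat.mul_le_mul_right _ (Nat.pow_le_pow_left h4 5)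
      calc 4 * (16 * a) ^ 3 = 16384 * a ^ 3 := by ring
        _ ≤ 16 * (16 ^ 5 * a ^ 3) := by nlinarith [Nat.zero_le (a ^ 3)]
        _ ≤ 16 * (a ^ 5 * a ^ 3) := Nat.mul_le_mul_left _ h5
        _ = (2 * (a * a)) ^ 4 := by ring) S (fun p hp => by
      have h3 := (hS p hp).2.1
      refine ⟨(hS p hp).1, ?_, by omega⟩
      nlinarith)
  have h3 := card_nsmul_le_sum S (fun p => ∑ m ∈ Icc 3 (16 * a), m.totient * dn p m) _ h1
  rw [smul_eq_mul] at h3
  have h5 : (28 * S.card) * (a * a) ≤ (4096 * a) * (a * a) := by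
    calc (28 * S.card) * (a * a) = S.card * (28 * (a * a)) := by ring
      _ ≤ (16 * a) ^ 3 := h3.trans h2
      _ = (4096 * a) * (a * a) := by ring
  have h6 := Nat.le_of_mul_le_mul_right h5 (by positivity)
  omega

private lemma count_0 (S : Finset ℕ)
    (hS : ∀ p ∈ S, p.Prime ∧ 64 < p ∧
      ∑ m ∈ (Icc 3 64).filter (fun m => dn p m = 0), m.totient ≤ 510) :
    S.card ≤ 512 := by
  have h1 : ∀ p ∈ S, 512 ≤ ∑ m ∈ Icc 3 64, m.totient * dn p m := by
    intro p hp
    have h2 := per_p p 64 510 (by norm_num) (hS p hp).2.2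
    omega
  have h2 := total 64 65 (by norm_num) (by norm_num) S
    (fun p hp => ⟨(hS p hp).1, (hS p hp).2.1, (hS p hp).2.1⟩)
  have h3 := card_nsmul_le_sum S (fun p => ∑ m ∈ Icc 3 64, m.totient * dn p m) _ h1
  rw [smul_eq_mul] at h3
  omega

theorem two_count : ∃ C : ℕ, ∀ (X : ℕ) (S : Finset ℕ),
    (∀ p ∈ S, p.Prime ∧ ∃ N ≤ X, 2 ≤ N ∧ 2 * N + 3 ≤ p ∧
      ∀ l : ℕ, l < p → ∑ m ∈ (Icc 3 l).filter (fun m => dn p m = 0), m.totient ≤ 2 * N) →
    S.card ^ 2 ≤ C * X := by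
  classical
  refine ⟨1000 ^ 2, fun X S hS => ?_⟩
  rcases S.eq_empty_or_nonempty with h0 | ⟨p0, hp0⟩
  · rw [h0]
    simp
  have hX : 1 ≤ X := by
    obtain ⟨-, N, h1, h2, -⟩ := hS p0 hp0
    omega
  set J := Nat.log 16 X with hJ
  set T : ℕ → Finset ℕ := fun j => S.filter
    (fun p => 2 ≤ j ∧ 2 * 16 ^ j + 3 ≤ p ∧
      ∑ m ∈ (Icc 3 (16 * 4 ^ j)).filter (fun m => dn p m = 0), m.totient ≤ 32 * 16 ^ j) with hT
  have hTcard : ∀ j, (T j).card ≤ 147 * 4 ^ j := by
    intro j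
    rcases Nat.lt_or_ge j 2 with h7 | h7
    · have : T j = ∅ := by
        rw [hT]
        simp only
        rw [filter_eq_empty_iff]
        intro p _ h
        omega
      rw [this]
      simp
    · refine count_j j h7 (T j) fun p hp => ?_
      rw [hT] at hp
      simp only at hp
      rw [mem_filter] at hp
      exact ⟨(hS p hp.1).1, hp.2.2.1, hp.2.2.2⟩
  set U : Finset ℕ := S.filter (fun p => 64 < p ∧
    ∑ m ∈ (Icc 3 64).filter (fun m => dn p m = 0), m.totient ≤ 510) with hU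
  have hUcard : U.card ≤ 512 := by
    refine count_0 U fun p hp => ?_
    rw [hU, mem_filter] at hp
    exact ⟨(hS p hp.1).1, hp.2⟩
  have hsub : S ⊆ (range 65 ∪ U) ∪ (range (J + 1)).biUnion T := by
    intro p hp
    obtain ⟨hpp, N, hNX, hN2, hNp, hl⟩ := hS p hp
    rw [mem_union, mem_union]
    rcases Nat.lt_or_ge 64 p with h64 | h64
    · rcases Nat.lt_or_ge N 256 with hN | hN
      · refine Or.inl (Or.inr ?_)
        rw [hU, mem_filter]
        exact ⟨hp, h64, (hl 64 h64).trans (by omega)⟩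
      · refine Or.inr ?_
        have h1 : 16 ^ Nat.log 16 N ≤ N := Nat.pow_log_le_self 16 (by omega)
        have h2 : N < 16 ^ (Nat.log 16 N + 1) := Nat.lt_pow_succ_log_self (by norm_num) N
        have hj2 : 2 ≤ Nat.log 16 N :=
          (Nat.le_log_iff_pow_le (by norm_num) (by omega)).2 (by norm_num; exact hN)
        rw [mem_biUnion]
        refine ⟨Nat.log 16 N, ?_, ?_⟩
        · rw [mem_range]
          have h3 := (Nat.le_log_iff_pow_le (b := 16) (by norm_num) (by omega)).2 (h1.trans hNX)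
          omega
        · rw [hT]
          simp only
          rw [mem_filter]
          have h16 : (16 : ℕ) ^ Nat.log 16 N = 4 ^ Nat.log 16 N * 4 ^ Nat.log 16 N := by
            rw [← mul_pow]; norm_num
          have h4 : 16 ≤ 4 ^ Nat.log 16 N := by
            calc 16 = 4 ^ 2 := by norm_num
              _ ≤ 4 ^ Nat.log 16 N := Nat.pow_le_pow_right (by norm_num) hj2
          have h5 : 16 * 4 ^ Nat.log 16 N < p := by nlinarith
          refine ⟨hp, hj2, by omega, (hl _ h5).trans ?_⟩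
          rw [pow_succ] at h2
          omega
    · refine Or.inl (Or.inl ?_)
      rw [mem_range]
      omega
  have h1 := card_le_card hsub
  have h3 : ((range (J + 1)).biUnion T).card ≤ 196 * 4 ^ J := by
    refine card_biUnion_le.trans ((sum_le_sum fun j _ => hTcard j).trans ?_)
    rw [← mul_sum]
    have h5 : 3 * ∑ i ∈ range (J + 1), 4 ^ i ≤ 4 ^ (J + 1) := by
      have : ∀ n : ℕ, 3 * ∑ i ∈ range n, 4 ^ i ≤ 4 ^ n := by
        intro n
        induction n with
        | zero => simp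
        | succ n ih => rw [sum_range_succ, pow_succ]; omega
      exact this _
    rw [pow_succ] at h5
    omega
  have h4 : S.card ≤ 577 + 196 * 4 ^ J := by
    refine h1.trans ((card_union_le _ _).trans ?_)
    have h5 := card_union_le (range 65) U
    rw [card_range] at h5
    omega
  have h5 : 1 ≤ 4 ^ J := Nat.one_le_pow _ _ (by norm_num)
  have h6 : 16 ^ J ≤ X := Nat.pow_log_le_self 16 (by omega)
  calc S.card ^ 2 ≤ (1000 * 4 ^ J) ^ 2 := Nat.pow_le_pow_left (by omega) 2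
    _ = 1000 ^ 2 * 16 ^ J := by
        rw [mul_pow, ← pow_mul, mul_comm J 2, pow_mul]
        norm_num
    _ ≤ 1000 ^ 2 * X := Nat.mul_le_mul_left _ h6

end Pool.Agent.TH494.TK
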